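import Pool.Agent.FLX.Stmts

set_option autoImplicit false

open scoped InnerProductSpace Topology ContDiff Manifold
open MeasureTheory Filter Set

noncomputable section

namespace Pool.Agent.FLX.H18

open Pool.Agent.FLX Pool.Agent.Helper42_Paneitz Pool.Agent.Helper82_Vir

theorem l2b (hMOA : MoaStmt) (hMOM : MomStmt) : L2bStmt := by
  intro b q hb hq
  have hb' : ‖-b‖ < 1 := by rwa [norm_neg]
  have hb0 := norm_nonneg b
  set c : ℝ := (1 + ‖b‖) / (1 - ‖b‖) with hc
  have hc0 : 0 ≤ c := by
    have : 0 < 1 - ‖b‖ := by linarith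
    positivity
  have h1 : ∫ y, q (mob b y) ^ 2 ∂sig = ∫ y, q y ^ 2 * Jac (-b) y ∂sig := by
    rw [← hMOM (-b) hb' (fun y => q (mob b y) ^ 2)]
    have h2 : ∀ y : S4, mob b (mob (-b) y) = y := by
      intro y
      have h3 := (hMOA (-b) hb').2.2.2.1 y
      rwa [neg_neg] at h3
    simp only [h2]
  have hJ : ∀ y : S4, 0 ≤ Jac (-b) y ∧ Jac (-b) y ≤ c ^ 2 := by
    intro y
    have h2 := abs_inner_le (-b) y
    have h3 := (abs_le.mp h2).1
    rw [norm_neg] at h3
    have hd : 0 < 1 - ‖b‖ := by linarith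
    have hd2 : 1 - ‖b‖ ≤ 1 + ⟪-b, (y : E5)⟫_ℝ := by linarith
    unfold Jac
    rw [norm_neg]
    constructor
    · positivity
    · have h4 : c ^ 2 = (1 - ‖b‖ ^ 2) ^ 2 / (1 - ‖b‖) ^ 4 := by
        rw [hc]
        field_simp
        ring
      rw [h4]
      apply div_le_div_of_nonneg_left (by positivity) (by positivity)
      exact pow_le_pow_left₀ hd.le hd2 4
  have hqi : Integrable (fun y : S4 => q y ^ 2) sig := by
    have : IsFiniteMeasure sig := inferInstance
    exact (Continuous.integrable_of_hasCompactSupport (by fun_prop)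
      (HasCompactSupport.of_compactSpace _))
  have hJc : Continuous (fun y : S4 => Jac (-b) y) := by
    unfold Jac
    refine Continuous.div continuous_const ?_ ?_
    · have : Continuous (fun y : S4 => ⟪-b, (y : E5)⟫_ℝ) :=
        continuous_const.inner continuous_subtype_val
      fun_prop
    · intro y
      exact pow_ne_zero 4 ((hMOA (-b) hb').1 y).ne'
  have h5 : ∫ y, q y ^ 2 * Jac (-b) y ∂sig ≤ c ^ 2 * ∫ y, q y ^ 2 ∂sig := by
    rw [← integral_const_mul]
    refine integral_mono ?_ (hqi.const_mul _) ?_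
    · exact (Continuous.integrable_of_hasCompactSupport ((hq.pow 2).mul hJc)
        (HasCompactSupport.of_compactSpace _))
    · intro y
      simp only
      nlinarith [(hJ y).2, sq_nonneg (q y)]
  unfold N2
  rw [h1]
  calc √(∫ y, q y ^ 2 * Jac (-b) y ∂sig) ≤ √(c ^ 2 * ∫ y, q y ^ 2 ∂sig) := Real.sqrt_le_sqrt h5
    _ = c * √(∫ y, q y ^ 2 ∂sig) := by
        rw [Real.sqrt_mul (by positivity), Real.sqrt_sq hc0]

end Pool.Agent.FLX.H18
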