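import Pool.Agent.FLX.Stmts

set_option autoImplicit false

open scoped InnerProductSpace Topology ContDiff Manifold
open MeasureTheory Filter Set

noncomputable section

namespace Pool.Agent.FLX.H18

open Pool.Agent.FLX Pool.Agent.Helper42_Paneitz Pool.Agent.Helper82_Vir

theorem sq_pos {b : E5} (hb : ‖b‖ < 1) : 0 < sq b := by
  unfold sq
  apply Real.sqrt_pos.mpr
  nlinarith [norm_nonneg b]

theorem sq_sq {b : E5} (hb : ‖b‖ < 1) : sq b ^ 2 = 1 - ‖b‖ ^ 2 := by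
  unfold sq
  apply Real.sq_sqrt
  nlinarith [norm_nonneg b]

theorem norm_sq_b {b : E5} (hb : ‖b‖ < 1) : ⟪b, b⟫_ℝ = 1 - sq b ^ 2 := by
  rw [sq_sq hb, real_inner_self_eq_norm_sq]
  ring

theorem u_pos {b : E5} (hb : ‖b‖ < 1) (x : S4) : 0 < 1 + ⟪b, (x : E5)⟫_ℝ := by
  have h := abs_inner_le b x
  have h2 := (abs_le.mp h).1
  linarith

theorem inner_mobE (e b x : E5) : ⟪e, mobE b x⟫_ℝ =
    (1 + ⟪b, x⟫_ℝ)⁻¹ * (sq b * ⟪e, x⟫_ℝ + (1 + ⟪b, x⟫_ℝ / (1 + sq b)) * ⟪e, b⟫_ℝ) := by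
  unfold mobE
  rw [inner_smul_right, inner_add_right, inner_smul_right, inner_smul_right]

theorem inner_b_mobE {b : E5} (hb : ‖b‖ < 1) (x : S4) :
    ⟪b, mobE b (x : E5)⟫_ℝ = 1 - sq b ^ 2 / (1 + ⟪b, (x : E5)⟫_ℝ) := by
  have hu := u_pos hb x
  have hs := sq_pos hb
  rw [inner_mobE, norm_sq_b hb]
  field_simp
  ring

theorem inner_mobE_mobE {b : E5} (hb : ‖b‖ < 1) (x y : S4) :
    1 - ⟪mobE b (x : E5), mobE b (y : E5)⟫_ℝ =
      sq b ^ 2 * (1 - ⟪(x : E5), (y : E5)⟫_ℝ) /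
        ((1 + ⟪b, (x : E5)⟫_ℝ) * (1 + ⟪b, (y : E5)⟫_ℝ)) := by
  have hu := u_pos hb x
  have hv := u_pos hb y
  have hs := sq_pos hb
  have h1 := inner_mobE (mobE b (x : E5)) b (y : E5)
  have h2 : ⟪mobE b (x : E5), (y : E5)⟫_ℝ = ⟪(y : E5), mobE b (x : E5)⟫_ℝ := real_inner_comm _ _
  have h3 : ⟪mobE b (x : E5), b⟫_ℝ = ⟪b, mobE b (x : E5)⟫_ℝ := real_inner_comm _ _
  have h4 := inner_mobE (y : E5) b (x : E5)
  have h5 : ⟪(y : E5), (x : E5)⟫_ℝ = ⟪(x : E5), (y : E5)⟫_ℝ := real_inner_comm _ _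
  have h6 : ⟪(y : E5), b⟫_ℝ = ⟪b, (y : E5)⟫_ℝ := real_inner_comm _ _
  rw [h1, h2, h3, h4, inner_b_mobE hb, h5, h6]
  field_simp
  ring

theorem norm_mobE {b : E5} (hb : ‖b‖ < 1) (x : S4) : ‖mobE b (x : E5)‖ = 1 := by
  have h := inner_mobE_mobE hb x x
  rw [real_inner_self_eq_norm_sq, real_inner_self_eq_norm_sq, S4_norm] at h
  have h2 : ‖mobE b (x : E5)‖ ^ 2 = 1 := by
    have h3 : sq b ^ 2 * (1 - (1 : ℝ) ^ 2) = 0 := by ring
    rw [h3, zero_div] at h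
    linarith
  have h4 := norm_nonneg (mobE b (x : E5))
  nlinarith

theorem mob_coe {b : E5} (hb : ‖b‖ < 1) (x : S4) : (mob b x : E5) = mobE b (x : E5) := by
  unfold mob
  rw [dif_pos (norm_mobE hb x)]

theorem mob_mob {b : E5} (hb : ‖b‖ < 1) (x : S4) : mob (-b) (mob b x) = x := by
  have hb' : ‖-b‖ < 1 := by rwa [norm_neg]
  have hu := u_pos hb x
  have hs := sq_pos hb
  have hsq : sq (-b) = sq b := by
    unfold sq
    rw [norm_neg]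
  apply Subtype.ext
  rw [mob_coe hb', mob_coe hb]
  have h1 : ⟪-b, mobE b (x : E5)⟫_ℝ = sq b ^ 2 / (1 + ⟪b, (x : E5)⟫_ℝ) - 1 := by
    rw [inner_neg_left, inner_b_mobE hb]
    ring
  set u : ℝ := 1 + ⟪b, (x : E5)⟫_ℝ with hudef
  have hm : mobE b (x : E5) = u⁻¹ • (sq b • (x : E5) + (1 + (u - 1) / (1 + sq b)) • b) := by
    unfold mobE
    rw [hudef]
    congr 4
    ring
  have hm2 : mobE (-b) (mobE b (x : E5)) = (sq b ^ 2 / u)⁻¹ • (sq b • mobE b (x : E5) +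
      (1 + (sq b ^ 2 / u - 1) / (1 + sq b)) • -b) := by
    conv_lhs => unfold mobE
    have h1' : ⟪-b, (1 + ⟪b, (x : E5)⟫_ℝ)⁻¹ • (sq b • (x : E5) +
        (1 + ⟪b, (x : E5)⟫_ℝ / (1 + sq b)) • b)⟫_ℝ = sq b ^ 2 / u - 1 := h1
    rw [h1', hsq]
    have e0 : 1 + (sq b ^ 2 / u - 1) = sq b ^ 2 / u := by ring
    rw [e0]
    rfl
  have e1 : (sq b ^ 2 / u)⁻¹ * (sq b * (u⁻¹ * sq b)) = 1 := by
    field_simp
  have e2 : (sq b ^ 2 / u)⁻¹ * (sq b * (u⁻¹ * (1 + (u - 1) / (1 + sq b)))) -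
      (sq b ^ 2 / u)⁻¹ * (1 + (sq b ^ 2 / u - 1) / (1 + sq b)) = 0 := by
    field_simp
    ring
  have e3 : (sq b ^ 2 / u)⁻¹ • (sq b • (u⁻¹ • (sq b • (x : E5) +
      (1 + (u - 1) / (1 + sq b)) • b)) + (1 + (sq b ^ 2 / u - 1) / (1 + sq b)) • -b) =
      ((sq b ^ 2 / u)⁻¹ * (sq b * (u⁻¹ * sq b))) • (x : E5) +
      ((sq b ^ 2 / u)⁻¹ * (sq b * (u⁻¹ * (1 + (u - 1) / (1 + sq b)))) -
      (sq b ^ 2 / u)⁻¹ * (1 + (sq b ^ 2 / u - 1) / (1 + sq b))) • b := by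
    module
  rw [hm2, hm, e3, e1, e2, one_smul, zero_smul, add_zero]

theorem bub_mob {b : E5} (hb : ‖b‖ < 1) {a : E5} (ha : ‖a‖ < 1) : ∃ a' : E5, ‖a'‖ < 1 ∧
    ∀ y : S4, bubv a (mob b y) * Jac b y = bubv a' y := by
  have hs := sq_pos hb
  have hα : 0 < 1 - ⟪a, b⟫_ℝ := by
    have h1 := real_inner_le_norm a b
    have h2 : ‖a‖ * ‖b‖ < 1 := by
      nlinarith [norm_nonneg a, norm_nonneg b]
    linarith
  set a' : E5 := (1 - ⟪a, b⟫_ℝ)⁻¹ • (sq b • a - (1 - ⟪a, b⟫_ℝ / (1 + sq b)) • b) with ha'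
  have hn : 1 - ‖a'‖ ^ 2 = sq b ^ 2 * (1 - ‖a‖ ^ 2) / (1 - ⟪a, b⟫_ℝ) ^ 2 := by
    rw [← real_inner_self_eq_norm_sq a', ha', inner_smul_left, inner_smul_right, inner_sub_left,
      inner_sub_right, inner_sub_right, inner_smul_left, inner_smul_right, inner_smul_left,
      inner_smul_right, inner_smul_left, inner_smul_right, inner_smul_left, inner_smul_right,
      norm_sq_b hb, real_inner_comm a b, real_inner_self_eq_norm_sq a]
    simp only [conj_trivial]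
    field_simp
    ring
  have hpos : 0 < 1 - ‖a'‖ ^ 2 := by
    rw [hn]
    have : 0 < 1 - ‖a‖ ^ 2 := by nlinarith [norm_nonneg a]
    positivity
  have hlt : ‖a'‖ < 1 := by nlinarith [norm_nonneg a']
  refine ⟨a', hlt, fun y => ?_⟩
  have hu := u_pos hb y
  have hin : 1 - ⟪a, (mob b y : E5)⟫_ℝ =
      (1 - ⟪a, b⟫_ℝ) * (1 - ⟪a', (y : E5)⟫_ℝ) / (1 + ⟪b, (y : E5)⟫_ℝ) := by
    rw [mob_coe hb, inner_mobE, ha', inner_smul_left, inner_sub_left, inner_smul_left,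
      inner_smul_left]
    simp only [conj_trivial]
    field_simp
    ring
  have hv : 0 < 1 - ⟪a', (y : E5)⟫_ℝ := by
    have := u_pos (b := -a') (by rwa [norm_neg]) y
    rw [inner_neg_left] at this
    linarith
  unfold bubv Jac
  rw [hn, hin, ← sq_sq hb]
  field_simp

theorem moa : MoaStmt := by
  intro b hb
  refine ⟨u_pos hb, mob_coe hb, ?_, mob_mob hb, ?_, fun a ha => bub_mob hb ha⟩
  · intro x y
    rw [mob_coe hb, mob_coe hb, inner_mobE_mobE hb, sq_sq hb]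
  · intro x
    have hu := u_pos hb x
    rw [mob_coe hb, inner_b_mobE hb, sq_sq hb]
    field_simp
    ring

end Pool.Agent.FLX.H18
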