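import Pool.Agent.FLX.Stmts

set_option autoImplicit false

open scoped InnerProductSpace Topology ContDiff Manifold
open MeasureTheory Filter Set

noncomputable section

namespace Pool.Agent.FLX.H18

open Pool.Agent.FLX Pool.Agent.Helper42_Paneitz Pool.Agent.Helper82_Vir

theorem sq_nonneg' (b : E5) : 0 ≤ sq b := Real.sqrt_nonneg _

theorem sq_continuous : Continuous sq := by
  unfold sq
  fun_prop

theorem mos (hMOA : MoaStmt) : MosStmt := by
  constructor
  · have h1 : ContinuousOn (fun z : E5 × S4 => (mob z.1 z.2 : E5)) {z | ‖z.1‖ < 1} := by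
      have h2 : ContinuousOn (fun z : E5 × S4 => mobE z.1 (z.2 : E5)) {z | ‖z.1‖ < 1} := by
        unfold mobE
        have hin : Continuous (fun z : E5 × S4 => ⟪z.1, (z.2 : E5)⟫_ℝ) :=
          continuous_fst.inner (continuous_subtype_val.comp continuous_snd)
        have hsq : Continuous (fun z : E5 × S4 => sq z.1) := sq_continuous.comp continuous_fst
        have hin1 : Continuous (fun z : E5 × S4 => 1 + ⟪z.1, (z.2 : E5)⟫_ℝ) :=
          continuous_const.add hin
        refine ContinuousOn.smul (ContinuousOn.inv₀ hin1.continuousOn ?_) ?_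
        · intro z hz
          exact ((hMOA z.1 hz).1 z.2).ne'
        · refine ContinuousOn.add ?_ ?_
          · have hval : Continuous (fun z : E5 × S4 => (z.2 : E5)) :=
              continuous_subtype_val.comp continuous_snd
            exact (hsq.smul hval).continuousOn
          · have hfst : Continuous (fun z : E5 × S4 => z.1) := continuous_fst
            have hsq1 : Continuous (fun z : E5 × S4 => 1 + sq z.1) := continuous_const.add hsq
            have hc : ContinuousOn (fun z : E5 × S4 => 1 + ⟪z.1, (z.2 : E5)⟫_ℝ / (1 + sq z.1))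
                {z | ‖z.1‖ < 1} := by
              refine ContinuousOn.add continuousOn_const ?_
              refine ContinuousOn.div hin.continuousOn hsq1.continuousOn ?_
              intro z _
              have := sq_nonneg' z.1
              positivity
            exact hc.smul hfst.continuousOn
      refine h2.congr ?_
      intro z hz
      exact (hMOA z.1 hz).2.1 z.2
    exact Topology.IsInducing.subtypeVal.continuousOn_iff.mpr h1
  · intro b hb Q hQ
    have he : (fun x : S4 => Q (mob b x)) = fun x : S4 => (fun y : E5 => radialExt Q (mobE b y)) x := by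
      funext x
      simp only
      rw [← (hMOA b hb).2.1 x, radialExt_coe]
    rw [he]
    refine sm_of_restrict (fun y : E5 => radialExt Q (mobE b y)) ?_
    intro x
    have h1 : ContDiffAt ℝ ∞ (mobE b) (x : E5) := by
      unfold mobE
      have hin : ContDiffAt ℝ ∞ (fun y : E5 => ⟪b, y⟫_ℝ) (x : E5) :=
        contDiffAt_const.inner ℝ contDiffAt_id
      have e1 : ContDiffAt ℝ ∞ (fun y : E5 => sq b • y) (x : E5) :=
        ContDiffAt.const_smul (f := fun y : E5 => y) (sq b) contDiffAt_id
      have e2 : ContDiffAt ℝ ∞ (fun y : E5 => (1 + ⟪b, y⟫_ℝ / (1 + sq b)) • b) (x : E5) :=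
        (contDiffAt_const.add (hin.div_const _)).smul contDiffAt_const
      exact ContDiffAt.smul ((contDiffAt_const.add hin).inv ((hMOA b hb).1 x).ne') (e1.add e2)
    have h2 : mobE b (x : E5) ≠ 0 := by
      rw [← (hMOA b hb).2.1 x]
      exact S4_ne_zero _
    exact (hQ _ h2).comp (x : E5) h1

end Pool.Agent.FLX.H18
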